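import Mathlib

/-!
# Nerves of families with comatching number two are not uniformly Leray

For every `d` there is a finite family of sets with comatching number at most two whose nerve is
not `d`-Leray.
-/

namespace Pool.Agent.Results.MP_587f0f_co.NotLeray

open Finset Function

/-! ### Definitions -/

/-- `τ(X, F) ≤ k`: every finite subfamily `M` such that each `f ∈ M` misses a point that lies in
all the other members of `M` has at most `k` members. -/
def ComatchingLE {X : Type} (F : Set (Set X)) (k : ℕ) : Prop :=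
  ∀ M : Finset (Set X), (∀ f ∈ M, f ∈ F) →
    (∀ f ∈ M, ∃ a, a ∉ f ∧ ∀ g ∈ M, g ≠ f → a ∈ g) → M.card ≤ k

/-- The nerve of a family of sets: its vertices are the members of the family, its faces the
nonempty finite subfamilies with a common point. -/
def nerve {X : Type} (F : Set (Set X)) : Set (Finset F) :=
  {s | s.Nonempty ∧ ∃ x, ∀ f ∈ s, x ∈ f.1}

/-- The subcomplex induced on a set of vertices. -/
def induced {V : Type} (K : Set (Finset V)) (W : Set V) : Set (Finset V) :=
  {s | s ∈ K ∧ ∀ v ∈ s, v ∈ W}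

/-- A finitely supported function `c` on `k`-tuples of vertices is an oriented simplicial
`(k-1)`-chain of `K` with rational coefficients (`c (v_0, …, v_{k-1})` is the coefficient of the
oriented simplex `[v_0, …, v_{k-1}]`) if it changes by the sign of the permutation when the
vertices are permuted, and vanishes on the nonempty tuples whose vertices do not form a face. -/
structure IsChain {V : Type} (K : Set (Finset V)) {k : ℕ} (c : (Fin k → V) →₀ ℚ) : Prop where
  alt : ∀ (σ : Equiv.Perm (Fin k)) (t : Fin k → V),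
    c (t ∘ σ) = ((Equiv.Perm.sign σ : ℤ) : ℚ) * c t
  supp : ∀ t, c t ≠ 0 → k = 0 ∨ ∃ s ∈ K, (s : Set V) = Set.range t

/-- The boundary of a chain: `(∂ c)(t) = ∑ v, c (v, t)`. -/
noncomputable def boundary {V : Type} {k : ℕ} (c : (Fin (k + 1) → V) →₀ ℚ) :
    (Fin k → V) →₀ ℚ :=
  c.mapDomain Fin.tail

/-- The reduced rational simplicial homology of `K` vanishes in degree `i`. -/
def HomologyVanishes {V : Type} (K : Set (Finset V)) (i : ℕ) : Prop :=
  ∀ z : (Fin (i + 1) → V) →₀ ℚ, IsChain K z → boundary z = 0 →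
    ∃ w : (Fin (i + 1 + 1) → V) →₀ ℚ, IsChain K w ∧ boundary w = z

/-- `K` is `d`-Leray. -/
def IsLeray {V : Type} (K : Set (Finset V)) (d : ℕ) : Prop :=
  ∀ W : Set V, ∀ i, d ≤ i → HomologyVanishes (induced K W) i

/-! ### Chains as functions -/

section Alg

/-- Alternating functions. -/
def Alt {V : Type} {k : ℕ} (c : (Fin k → V) → ℚ) : Prop :=
  ∀ (σ : Equiv.Perm (Fin k)) (t : Fin k → V),
    c (t ∘ σ) = ((Equiv.Perm.sign σ : ℤ) : ℚ) * c t

/-- Face condition for tuples. -/
def Fc {V Q : Type} (R : V → Q → Prop) {k : ℕ} (t : Fin k → V) : Prop := ∃ q, ∀ i, R (t i) q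

/-- Support condition. -/
def Sup {V Q : Type} (R : V → Q → Prop) {k : ℕ} (c : (Fin k → V) → ℚ) : Prop :=
  ∀ t, c t ≠ 0 → Fc R t

/-- Cycles. -/
def Cyc {V : Type} [Fintype V] {k : ℕ} (z : (Fin k → V) → ℚ) : Prop :=
  ∀ (t : Fin k → V) (i : Fin k), ∑ v, z (Function.update t i v) = 0

/-- The boundary as a function. -/
def bd {V : Type} [Fintype V] {k : ℕ} (c : (Fin (k + 1) → V) → ℚ) (t : Fin k → V) : ℚ :=
  ∑ v, c (Fin.cons v t)

variable {V : Type} [Fintype V]

lemma alt_perm_comp {k : ℕ} {c : (Fin k → V) → ℚ} (h : Alt c) (σ : Equiv.Perm (Fin k))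
    (t : Fin k → V) : ((Equiv.Perm.sign σ : ℤ) : ℚ) * c (t ∘ σ) = c t := by
  rw [h σ t, ← mul_assoc, ← Int.cast_mul, ← Units.val_mul, Int.units_mul_self]
  simp

lemma cyc_of_bd {k : ℕ} {c : (Fin (k + 1) → V) → ℚ} (h : Alt c) (h0 : ∀ t, bd c t = 0) :
    Cyc c := by
  intro t i
  have key : ∀ v, c (Function.update t i v)
      = ((Equiv.Perm.sign (Equiv.swap 0 i) : ℤ) : ℚ) *
        c (Fin.cons v (Fin.tail (t ∘ Equiv.swap 0 i))) := by
    intro v
    have : Function.update t i v
        = (Fin.cons v (Fin.tail (t ∘ Equiv.swap 0 i)) : Fin (k + 1) → V) ∘ Equiv.swap 0 i := by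
      funext j
      simp only [Function.comp]
      by_cases hj : j = i
      · subst hj
        simp
      · rw [Function.update_of_ne hj]
        by_cases hj0 : j = 0
        · subst hj0
          rw [Equiv.swap_apply_left]
          obtain ⟨i', rfl⟩ := Fin.exists_succ_eq.2 (Ne.symm hj)
          rw [Fin.cons_succ]
          simp [Fin.tail]
        · rw [Equiv.swap_apply_of_ne_of_ne hj0 hj]
          obtain ⟨j', rfl⟩ := Fin.exists_succ_eq.2 hj0
          rw [Fin.cons_succ]
          simp only [Fin.tail, Function.comp]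
          rw [Equiv.swap_apply_of_ne_of_ne hj0 hj]
    rw [this, h]
  simp only [key]
  rw [← Finset.mul_sum]
  have := h0 (Fin.tail (t ∘ Equiv.swap 0 i))
  unfold bd at this
  rw [this, mul_zero]

/-- The antisymmetrised cone. -/
noncomputable def cone {k : ℕ} (z : (Fin k → V) → ℚ) (s : Fin (k + 1) → V) : ℚ :=
  ∑ σ : Equiv.Perm (Fin (k + 1)), ((Equiv.Perm.sign σ : ℤ) : ℚ) * z (Fin.tail (s ∘ σ))

lemma cone_alt {k : ℕ} (z : (Fin k → V) → ℚ) : Alt (cone z) := by
  intro π s
  unfold cone
  rw [Finset.mul_sum]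
  refine Fintype.sum_equiv (Equiv.mulLeft π) _ _ ?_
  intro σ
  simp only [Equiv.coe_mulLeft, Equiv.Perm.sign_mul, Units.val_mul, Int.cast_mul]
  have : (s ∘ π) ∘ σ = s ∘ (π * σ) := by
    funext j; simp [Function.comp]
  rw [this, ← mul_assoc, ← mul_assoc]
  have h2 : (((Equiv.Perm.sign π : ℤ) : ℚ)) * ((Equiv.Perm.sign π : ℤ) : ℚ) = 1 := by
    rw [← Int.cast_mul, ← Units.val_mul, Int.units_mul_self]; simp
  rw [h2, one_mul]

lemma cone_bd {k : ℕ} {z : (Fin k → V) → ℚ} (ha : Alt z) (hc : Cyc z) (t : Fin k → V) :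
    bd (cone z) t = (Fintype.card V * (Nat.factorial k) : ℚ) * z t := by
  unfold bd cone
  rw [Finset.sum_comm]
  rw [← Equiv.sum_comp Equiv.Perm.decomposeFin.symm, Fintype.sum_prod_type, Fin.sum_univ_succ]
  have h1 : ∑ ρ : Equiv.Perm (Fin k), ∑ v : V,
      ((Equiv.Perm.sign (Equiv.Perm.decomposeFin.symm (0, ρ)) : ℤ) : ℚ) *
        z (Fin.tail ((Fin.cons v t : Fin (k + 1) → V) ∘ Equiv.Perm.decomposeFin.symm (0, ρ)))
      = (Fintype.card V * (Nat.factorial k) : ℚ) * z t := by
    have : ∀ (ρ : Equiv.Perm (Fin k)) (v : V),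
        ((Equiv.Perm.sign (Equiv.Perm.decomposeFin.symm (0, ρ)) : ℤ) : ℚ) *
        z (Fin.tail ((Fin.cons v t : Fin (k + 1) → V) ∘ Equiv.Perm.decomposeFin.symm (0, ρ)))
        = z t := by
      intro ρ v
      have e1 : Fin.tail ((Fin.cons v t : Fin (k + 1) → V) ∘
          Equiv.Perm.decomposeFin.symm (0, ρ)) = t ∘ ρ := by
        funext j
        simp [Fin.tail, Equiv.Perm.decomposeFin_symm_apply_succ]
      rw [e1, Equiv.Perm.decomposeFin.symm_sign]
      simp only [if_true, one_mul]
      exact alt_perm_comp ha ρ t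
    simp only [this, Finset.sum_const, Finset.card_univ, nsmul_eq_mul, Fintype.card_perm,
      Fintype.card_fin]
    ring
  have h2 : ∀ p : Fin k, ∑ ρ : Equiv.Perm (Fin k), ∑ v : V,
      ((Equiv.Perm.sign (Equiv.Perm.decomposeFin.symm (p.succ, ρ)) : ℤ) : ℚ) *
        z (Fin.tail ((Fin.cons v t : Fin (k + 1) → V) ∘
          Equiv.Perm.decomposeFin.symm (p.succ, ρ))) = 0 := by
    intro p
    apply Finset.sum_eq_zero
    intro ρ _
    rw [← Finset.mul_sum]
    have : ∑ v : V, z (Fin.tail ((Fin.cons v t : Fin (k + 1) → V) ∘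
          Equiv.Perm.decomposeFin.symm (p.succ, ρ))) = 0 := by
      have e2 : ∀ v : V, Fin.tail ((Fin.cons v t : Fin (k + 1) → V) ∘
          Equiv.Perm.decomposeFin.symm (p.succ, ρ))
          = Function.update (t ∘ ρ) (ρ.symm p) v := by
        intro v
        funext j
        simp only [Fin.tail, Function.comp, Equiv.Perm.decomposeFin_symm_apply_succ]
        by_cases hj : j = ρ.symm p
        · subst hj
          simp
        · rw [Function.update_of_ne hj]
          have hne : ρ j ≠ p := by
            intro h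
            apply hj
            rw [← h]; simp
          rw [Equiv.swap_apply_of_ne_of_ne (Fin.succ_ne_zero _)
            (by simpa using hne)]
          simp
      simp only [e2]
      exact hc _ _
    rw [this, mul_zero]
  rw [h1, Finset.sum_eq_zero (fun p _ => h2 p), add_zero]

end Alg

/-! ### The inductive step -/

section Step

open Classical

/-- The sign of a point of the cube. -/
noncomputable def chi {Q : Type} [Fintype Q] (x : Q → Bool) : ℚ :=
  ∏ q, (if x q then (-1 : ℚ) else 1)

/-- Flipping a coordinate. -/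
noncomputable def flip {Q : Type} (q : Q) (x : Q → Bool) : Q → Bool :=
  Function.update x q (!(x q))

lemma flip_flip {Q : Type} (q : Q) (x : Q → Bool) : flip q (flip q x) = x := by
  funext r
  unfold flip
  by_cases h : r = q
  · subst h; simp
  · simp [Function.update_of_ne h]

lemma chi_flip {Q : Type} [Fintype Q] (q : Q) (x : Q → Bool) : chi (flip q x) = - chi x := by
  unfold chi
  rw [← Finset.mul_prod_erase Finset.univ _ (Finset.mem_univ q),
    ← Finset.mul_prod_erase Finset.univ (fun q => if x q then (-1 : ℚ) else 1)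
      (Finset.mem_univ q)]
  have h1 : ∏ r ∈ Finset.univ.erase q, (if flip q x r then (-1 : ℚ) else 1)
      = ∏ r ∈ Finset.univ.erase q, (if x r then (-1 : ℚ) else 1) := by
    apply Finset.prod_congr rfl
    intro r hr
    have : r ≠ q := (Finset.mem_erase.1 hr).1
    unfold flip
    rw [Function.update_of_ne this]
  rw [h1]
  unfold flip
  rw [Function.update_self]
  cases x q <;> simp

lemma chi_zero {Q : Type} [Fintype Q] : chi (fun _ : Q => false) = 1 := by
  unfold chi; simp

/-- Sum of signs over a set closed under flipping. -/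
lemma sum_chi_zero {Q : Type} [Fintype Q] (P : (Q → Bool) → Prop) (q : Q)
    (h : ∀ x, P x → P (flip q x)) : ∑ x, (if P x then chi x else 0) = 0 := by
  have h' : ∀ x, P (flip q x) ↔ P x := by
    intro x
    refine ⟨fun hx => ?_, h x⟩
    have := h _ hx
    rwa [flip_flip] at this
  have e : ∑ x, (if P x then chi x else 0) = ∑ x, (if P (flip q x) then chi (flip q x) else 0) := by
    refine (Fintype.sum_equiv ⟨flip q, flip q, flip_flip q, flip_flip q⟩ _ _ ?_).symm
    intro x
    rfl
  have e2 : ∑ x, (if P (flip q x) then chi (flip q x) else 0)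
      = - ∑ x, (if P x then chi x else 0) := by
    rw [← Finset.sum_neg_distrib]
    apply Finset.sum_congr rfl
    intro x _
    rw [chi_flip]
    simp only [h']
    split_ifs <;> simp
  rw [e2] at e
  linarith

/-- The data of the step. -/
structure StepData {V Q V' : Type} (R : V → Q → Prop) (R' : V' → (Q → Bool) → Prop)
    (pr : V' → V) (lift : (Q → Bool) → V → V') : Prop where
  pr_lift : ∀ x v, pr (lift x v) = v
  lift_mem : ∀ x v, R' (lift x v) x
  lift_pr : ∀ x v', R' v' x → lift x (pr v') = v'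
  mem_iff : ∀ x y v', R' v' x → (R' v' y ↔ ∀ q, ¬ R (pr v') q → y q = x q)

variable {V Q V' : Type} [Fintype V] [Fintype Q] [Fintype V'] {R : V → Q → Prop}
  {R' : V' → (Q → Bool) → Prop} {pr : V' → V} {lift : (Q → Bool) → V → V'}

/-- The point `x` lies in all the members of the tuple. -/
def Thr {V' X : Type} (R' : V' → X → Prop) {k : ℕ} (t : Fin k → V') (x : X) : Prop :=
  ∀ i, R' (t i) x

/-- The new cycle. -/
noncomputable def newZ (R' : V' → (Q → Bool) → Prop) (pr : V' → V) {k : ℕ}
    (c : (Fin k → V) → ℚ) (t : Fin k → V') : ℚ :=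
  (∑ x, if Thr R' t x then chi x else 0) * c (pr ∘ t)

lemma newZ_alt {k : ℕ} {c : (Fin k → V) → ℚ} (hc : Alt c) : Alt (newZ R' pr c) := by
  intro σ t
  unfold newZ
  have h1 : ∀ x, Thr R' (t ∘ σ) x ↔ Thr R' t x := by
    intro x
    constructor
    · intro h i
      have := h (σ.symm i)
      simpa using this
    · intro h i
      exact h _
  simp only [h1]
  have h2 : pr ∘ (t ∘ σ) = (pr ∘ t) ∘ σ := rfl
  rw [h2, hc]
  ring

lemma newZ_sup {k : ℕ} {c : (Fin k → V) → ℚ} : Sup R' (newZ R' pr c) := by
  intro t ht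
  by_contra hcon
  apply ht
  unfold newZ
  rw [Finset.sum_eq_zero, zero_mul]
  intro x _
  rw [if_neg]
  intro hx
  exact hcon ⟨x, hx⟩

/-- Flipping a free coordinate preserves membership. -/
lemma flip_mem (D : StepData R R' pr lift) {v' : V'} {q : Q} (hq : R (pr v') q) {x : Q → Bool}
    (hx : R' v' x) : R' v' (flip q x) := by
  rw [D.mem_iff x _ v' hx]
  intro r hr
  have : r ≠ q := by
    rintro rfl
    exact hr hq
  unfold flip
  rw [Function.update_of_ne this]

/-- Sum over the members through a point. -/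
lemma sum_through (D : StepData R R' pr lift) (x : Q → Bool) (f : V → ℚ) :
    ∑ v', (if R' v' x then f (pr v') else 0) = ∑ v, f v := by
  rw [← Finset.sum_filter]
  refine (Finset.sum_bij (fun v _ => lift x v) ?_ ?_ ?_ ?_).symm
  · intro v _
    simp [D.lift_mem x v]
  · intro a _ b _ h
    rw [← D.pr_lift x a, ← D.pr_lift x b, h]
  · intro v' hv'
    refine ⟨pr v', Finset.mem_univ _, ?_⟩
    exact D.lift_pr x v' (by simpa using hv')
  · intro v _
    rw [D.pr_lift]

lemma newZ_bd (D : StepData R R' pr lift) {k : ℕ} {z : (Fin k → V) → ℚ}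
    {c : (Fin (k + 1) → V) → ℚ} {lam : ℚ} (hz : Sup R z) (hb : ∀ t, bd c t = lam * z t)
    (t : Fin k → V') : bd (newZ R' pr c) t = 0 := by
  unfold bd newZ
  have e1 : ∀ v' : V', (∑ x, if Thr R' (Fin.cons v' t : Fin (k + 1) → V') x
        then chi x else 0) * c (pr ∘ (Fin.cons v' t : Fin (k + 1) → V'))
      = ∑ x, (if Thr R' t x then chi x else 0) *
          (if R' v' x then c (Fin.cons (pr v') (pr ∘ t)) else 0) := by
    intro v'
    rw [Finset.sum_mul]
    apply Finset.sum_congr rfl
    intro x _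
    have h1 : pr ∘ (Fin.cons v' t : Fin (k + 1) → V') = Fin.cons (pr v') (pr ∘ t) := by
      funext j
      refine Fin.cases ?_ (fun j => ?_) j <;> simp
    rw [h1]
    have h2 : Thr R' (Fin.cons v' t : Fin (k + 1) → V') x ↔ (R' v' x ∧ Thr R' t x) := by
      unfold Thr
      rw [Fin.forall_fin_succ]
      simp
    simp only [h2]
    by_cases ha : R' v' x <;> by_cases hb : Thr R' t x <;> simp [ha, hb]
  simp only [e1]
  rw [Finset.sum_comm]
  simp only [← Finset.mul_sum]
  have e2 : ∀ x, ∑ v', (if R' v' x then c (Fin.cons (pr v') (pr ∘ t)) else 0)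
      = lam * z (pr ∘ t) := by
    intro x
    rw [sum_through D x (fun v => c (Fin.cons v (pr ∘ t)))]
    exact hb _
  simp only [e2]
  rw [← Finset.sum_mul]
  by_cases hzt : z (pr ∘ t) = 0
  · rw [hzt]; simp
  · obtain ⟨q, hq⟩ := hz _ hzt
    rw [sum_chi_zero (fun x => Thr R' t x) q, zero_mul]
    intro x hx i
    exact flip_mem D (hq i) (hx i)

/-- Restriction to the lift of the origin followed by the boundary and the restriction to the
old complex. -/
noncomputable def rho (R : V → Q → Prop) (lift : (Q → Bool) → V → V') (k : ℕ) :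
    ((Fin (k + 1) → V') → ℚ) →ₗ[ℚ] ((Fin k → V) → ℚ) where
  toFun w := fun t => if Fc R t then
    ∑ v, w (Fin.cons (lift (fun _ => false) v) (lift (fun _ => false) ∘ t)) else 0
  map_add' w1 w2 := by
    funext t
    simp only [Pi.add_apply]
    split_ifs
    · rw [Finset.sum_add_distrib]
    · simp
  map_smul' a w := by
    funext t
    simp only [Pi.smul_apply, smul_eq_mul, RingHom.id_apply]
    split_ifs
    · rw [Finset.mul_sum]
    · simp

lemma lift_cons (l : V → V') {k : ℕ} (v : V) (t : Fin k → V) :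
    l ∘ (Fin.cons v t : Fin (k + 1) → V) = Fin.cons (l v) (l ∘ t) := by
  funext j
  refine Fin.cases ?_ (fun j => ?_) j <;> simp

lemma face_of (D : StepData R R' pr lift) {k : ℕ} {w : (Fin (k + 1) → V') → ℚ}
    (hws : Sup R' w) (s : Fin k → V) (v' : V')
    (h : ¬ ∃ v, v' = lift (fun _ => false) v)
    (hv' : w (Fin.cons v' (lift (fun _ => false) ∘ s)) ≠ 0) : Fc R s := by
  obtain ⟨x, hx⟩ := hws _ hv'
  have hx0 := hx 0
  simp only [Fin.cons_zero] at hx0
  have : ∃ q, ¬ R (pr v') q ∧ x q = true := by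
    by_contra hcon
    push Not at hcon
    apply h
    refine ⟨pr v', ?_⟩
    have hz : R' v' (fun _ => false) := by
      rw [D.mem_iff x _ v' hx0]
      intro q hq
      have := hcon q hq
      simpa using this
    rw [D.lift_pr _ _ hz]
  obtain ⟨q, hq1, hq2⟩ := this
  refine ⟨q, fun i => ?_⟩
  have hxi := hx i.succ
  simp only [Fin.cons_succ, Function.comp] at hxi
  have h0 := D.lift_mem (fun _ => false) (s i)
  rw [D.mem_iff _ x _ h0] at hxi
  by_contra hR
  have := hxi q (by rw [D.pr_lift]; exact hR)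
  rw [hq2] at this
  exact absurd this (by simp)

/-- The functional vanishes on boundaries. -/
lemma rho_bd (D : StepData R R' pr lift) {k : ℕ} {w : (Fin (k + 1 + 1) → V') → ℚ}
    (hwa : Alt w) (hws : Sup R' w) :
    ∃ e : (Fin (k + 1) → V) → ℚ, Alt e ∧ Sup R e ∧ rho R lift k (bd w) = bd e := by
  set l : V → V' := lift (fun _ => false) with hl
  refine ⟨fun s => ∑ v', if (∃ v, v' = l v) then 0 else w (Fin.cons v' (l ∘ s)), ?_, ?_, ?_⟩
  · intro σ s
    simp only
    rw [Finset.mul_sum]
    apply Finset.sum_congr rfl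
    intro v' _
    split_ifs with h
    · simp
    · have : (Fin.cons v' (l ∘ (s ∘ σ)) : Fin (k + 1 + 1) → V')
          = (Fin.cons v' (l ∘ s)) ∘ (Equiv.Perm.decomposeFin.symm (0, σ)) := by
        funext j
        refine Fin.cases ?_ (fun j => ?_) j
        · simp
        · simp [Equiv.Perm.decomposeFin_symm_apply_succ]
      rw [this, hwa, Equiv.Perm.decomposeFin.symm_sign]
      simp
  · intro s hs
    simp only at hs
    obtain ⟨v', _, hv'⟩ := Finset.exists_ne_zero_of_sum_ne_zero hs
    split_ifs at hv' with h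
    · exact absurd rfl hv'
    · exact face_of D hws s v' h hv'
  · funext t
    have hbd : ∀ s : Fin (k + 1) → V, bd w (l ∘ s) = (∑ u, w (l ∘ (Fin.cons u s : Fin (k+1+1) → V)))
        + ∑ v', if (∃ v, v' = l v) then 0 else w (Fin.cons v' (l ∘ s)) := by
      intro s
      unfold bd
      have hsplit : ∀ v' : V', w (Fin.cons v' (l ∘ s)) =
          (if (∃ v, v' = l v) then w (Fin.cons v' (l ∘ s)) else 0) +
          (if (∃ v, v' = l v) then 0 else w (Fin.cons v' (l ∘ s))) := by
        intro v'
        split_ifs <;> simp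
      rw [Finset.sum_congr rfl (fun v' _ => hsplit v'), Finset.sum_add_distrib]
      congr 1
      rw [← Finset.sum_filter]
      refine (Finset.sum_bij (fun v _ => l v) ?_ ?_ ?_ ?_).symm
      · intro v _
        simp
      · intro a _ b _ h
        have h2 := congrArg pr h
        rwa [hl, D.pr_lift, D.pr_lift] at h2
      · intro v' hv'
        obtain ⟨v, hv⟩ := (Finset.mem_filter.1 hv').2
        exact ⟨v, Finset.mem_univ _, hv.symm⟩
      · intro v _
        rw [lift_cons]
    have hanti : ∑ v, ∑ u, w (l ∘ (Fin.cons u (Fin.cons v t) : Fin (k+1+1) → V)) = 0 := by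
      have e : ∑ v, ∑ u, w (l ∘ (Fin.cons u (Fin.cons v t) : Fin (k+1+1) → V))
          = - ∑ v, ∑ u, w (l ∘ (Fin.cons v (Fin.cons u t) : Fin (k+1+1) → V)) := by
        rw [← Finset.sum_neg_distrib]
        apply Finset.sum_congr rfl
        intro v _
        rw [← Finset.sum_neg_distrib]
        apply Finset.sum_congr rfl
        intro u _
        have : (l ∘ (Fin.cons u (Fin.cons v t) : Fin (k+1+1) → V))
            = (l ∘ (Fin.cons v (Fin.cons u t) : Fin (k+1+1) → V)) ∘ (Equiv.swap 0 1) := by
          funext j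
          simp only [Function.comp]
          congr 1
          refine Fin.cases ?_ (fun j => ?_) j
          · rw [Equiv.swap_apply_left]
            have : (1 : Fin (k+1+1)) = Fin.succ 0 := rfl
            rw [this]
            simp
          · refine Fin.cases ?_ (fun j => ?_) j
            · have : (Fin.succ 0 : Fin (k+1+1)) = 1 := rfl
              rw [this, Equiv.swap_apply_right]
              rw [← this]
              simp
            · rw [Equiv.swap_apply_of_ne_of_ne (Fin.succ_ne_zero _)]
              · simp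
              · intro h
                have : (1 : Fin (k+1+1)) = Fin.succ 0 := rfl
                rw [this] at h
                exact Fin.succ_ne_zero _ (Fin.succ_injective _ h)
        rw [this, hwa, Equiv.Perm.sign_swap (by simp)]
        simp
      rw [Finset.sum_comm] at e
      have e3 : ∑ v, ∑ u, w (l ∘ (Fin.cons v (Fin.cons u t) : Fin (k+1+1) → V))
          = ∑ u, ∑ v, w (l ∘ (Fin.cons v (Fin.cons u t) : Fin (k+1+1) → V)) := Finset.sum_comm
      rw [e3] at e
      rw [Finset.sum_comm] at e
      have e4 : ∑ v, ∑ u, w (l ∘ (Fin.cons u (Fin.cons v t) : Fin (k+1+1) → V))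
        = ∑ x, ∑ y, w (l ∘ (Fin.cons y (Fin.cons x t) : Fin (k+1+1) → V)) := rfl
      linarith
    show (if Fc R t then ∑ v, bd w (Fin.cons (l v) (l ∘ t)) else 0) = bd _ t
    have h3 : ∑ v, bd w (Fin.cons (l v) (l ∘ t))
        = ∑ v, ∑ v', if (∃ u, v' = l u) then 0
            else w (Fin.cons v' (l ∘ (Fin.cons v t : Fin (k + 1) → V))) := by
      have : ∀ v, bd w (Fin.cons (l v) (l ∘ t)) = bd w (l ∘ (Fin.cons v t : Fin (k+1) → V)) := by
        intro v
        rw [lift_cons]
      simp only [this, hbd]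
      rw [Finset.sum_add_distrib, hanti, zero_add]
    rw [h3]
    split_ifs with hf
    · rfl
    · unfold bd
      symm
      apply Finset.sum_eq_zero
      intro v _
      apply Finset.sum_eq_zero
      intro v' _
      split_ifs with hv'
      · rfl
      · by_contra hne
        obtain ⟨q, hq⟩ := face_of D hws _ v' hv' hne
        exact hf ⟨q, fun i => by simpa using hq i.succ⟩

/-- The functional applied to the new cycle. -/
lemma rho_newZ (D : StepData R R' pr lift) {k : ℕ} {z : (Fin k → V) → ℚ}
    {c : (Fin (k + 1) → V) → ℚ} {lam : ℚ} (hc : Alt c) (hz : Sup R z)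
    (hb : ∀ t, bd c t = lam * z t) :
    ∃ e : (Fin (k + 1) → V) → ℚ, Alt e ∧ Sup R e ∧
      rho R lift k (newZ R' pr c) = lam • z - bd e := by
  refine ⟨fun s => if Fc R s then c s else 0, ?_, ?_, ?_⟩
  · intro σ s
    simp only
    have : Fc R (s ∘ σ) ↔ Fc R s := by
      constructor
      · rintro ⟨q, hq⟩
        exact ⟨q, fun i => by simpa using hq (σ.symm i)⟩
      · rintro ⟨q, hq⟩
        exact ⟨q, fun i => hq _⟩
    simp only [this]
    split_ifs
    · exact hc σ s
    · simp
  · intro s hs
    simp only at hs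
    by_contra h
    rw [if_neg h] at hs
    exact hs rfl
  · have hZ : ∀ s : Fin (k + 1) → V, newZ R' pr c (lift (fun _ => false) ∘ s)
        = c s - (if Fc R s then c s else 0) := by
      intro s
      unfold newZ
      have h1 : pr ∘ (lift (fun _ => false) ∘ s) = s := by
        funext i
        simp [D.pr_lift]
      rw [h1]
      have h2 : ∀ x, Thr R' (lift (fun _ => false) ∘ s) x ↔
          ∀ i q, ¬ R (s i) q → x q = false := by
        intro x
        unfold Thr
        apply forall_congr'
        intro i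
        have := D.mem_iff (fun _ => false) x (lift (fun _ => false) (s i)) (D.lift_mem _ _)
        rw [D.pr_lift] at this
        exact this
      split_ifs with hf
      · obtain ⟨q, hq⟩ := hf
        rw [sum_chi_zero (fun x => Thr R' (lift (fun _ => false) ∘ s) x) q]
        · ring
        · intro x hx
          rw [h2] at hx ⊢
          intro i r hr
          have : r ≠ q := by
            rintro rfl
            exact hr (hq i)
          unfold flip
          rw [Function.update_of_ne this]
          exact hx i r hr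
      · rw [Finset.sum_eq_single (fun _ => false)]
        · rw [if_pos, chi_zero]
          · ring
          · rw [h2]
            intro i q _
            rfl
        · intro x _ hx
          rw [if_neg]
          intro hT
          rw [h2] at hT
          apply hx
          funext q
          by_contra hq
          apply hf
          refine ⟨q, fun i => ?_⟩
          by_contra hR
          exact hq (hT i q hR)
        · intro h
          exact absurd (Finset.mem_univ _) h
    funext t
    show (if Fc R t then ∑ v, newZ R' pr c (Fin.cons (lift (fun _ => false) v)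
      (lift (fun _ => false) ∘ t)) else 0) = lam * z t - bd _ t
    split_ifs with hf
    · have : ∀ v, newZ R' pr c (Fin.cons (lift (fun _ => false) v)
          (lift (fun _ => false) ∘ t))
          = c (Fin.cons v t) - (if Fc R (Fin.cons v t : Fin (k + 1) → V) then c (Fin.cons v t)
            else 0) := by
        intro v
        rw [← lift_cons, hZ]
      simp only [this]
      rw [Finset.sum_sub_distrib, ← hb]
      rfl
    · have h1 : z t = 0 := by
        by_contra h
        exact hf (hz t h)
      rw [h1]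
      unfold bd
      rw [Finset.sum_eq_zero]
      · ring
      · intro v _
        show (if Fc R (Fin.cons v t : Fin (k + 1) → V) then c (Fin.cons v t) else 0) = 0
        rw [if_neg]
        rintro ⟨q, hq⟩
        exact hf ⟨q, fun i => by simpa using hq i.succ⟩

/-- A nontrivial pair: a cycle and a cocycle which do not annihilate each other. -/
def Pair {V Q : Type} [Fintype V] (R : V → Q → Prop) (k : ℕ) : Prop :=
  ∃ (z : (Fin k → V) → ℚ) (φ : ((Fin k → V) → ℚ) →ₗ[ℚ] ℚ),
    Alt z ∧ Sup R z ∧ Cyc z ∧ φ z ≠ 0 ∧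
    ∀ w : (Fin (k + 1) → V) → ℚ, Alt w → Sup R w → φ (bd w) = 0

theorem Pair.step [Nonempty V] (D : StepData R R' pr lift) {k : ℕ} (h : Pair R k) :
    Pair R' (k + 1) := by
  obtain ⟨z, φ, hza, hzs, hzc, hφ, hco⟩ := h
  have hb := cone_bd hza hzc
  set lam : ℚ := (Fintype.card V * (Nat.factorial k) : ℚ) with hlam
  have hlam0 : lam ≠ 0 := by
    rw [hlam]
    have h1 : (Fintype.card V : ℚ) ≠ 0 := by
      have := Fintype.card_ne_zero (α := V)
      exact_mod_cast this
    have h2 : ((Nat.factorial k : ℕ) : ℚ) ≠ 0 := by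
      exact_mod_cast Nat.factorial_ne_zero k
    exact mul_ne_zero h1 h2
  refine ⟨newZ R' pr (cone z), φ.comp (rho R lift k), newZ_alt (cone_alt z), newZ_sup, ?_, ?_, ?_⟩
  · exact cyc_of_bd (newZ_alt (cone_alt z)) (newZ_bd D hzs hb)
  · obtain ⟨e, he1, he2, he3⟩ := rho_newZ D (cone_alt z) hzs hb
    rw [LinearMap.comp_apply, he3, map_sub, map_smul, hco e he1 he2, sub_zero, smul_eq_mul]
    exact mul_ne_zero hlam0 hφ
  · intro w hwa hws
    obtain ⟨e, he1, he2, he3⟩ := rho_bd D hwa hws
    rw [LinearMap.comp_apply, he3, hco e he1 he2]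

end Step

/-! ### The families of subcubes -/

section Cubes

open Classical

/-- The subcube of `{0,1}^Q` through `x` with free coordinates `S`. -/
def cube {Q : Type} (S : Set Q) (x : Q → Bool) : Set (Q → Bool) :=
  {y | ∀ q, q ∉ S → y q = x q}

/-- The family of all subcubes whose sets of free coordinates belong to `F`. -/
def next {Q : Type} (F : Set (Set Q)) : Set (Set (Q → Bool)) :=
  {C | ∃ S ∈ F, ∃ x, C = cube S x}

/-- The free coordinates of a set of points of the cube. -/
def free {Q : Type} (C : Set (Q → Bool)) : Set Q := {q | ∃ y ∈ C, flip q y ∈ C}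

lemma free_cube {Q : Type} (S : Set Q) (x : Q → Bool) : free (cube S x) = S := by
  ext q
  constructor
  · rintro ⟨y, hy, hf⟩
    by_contra hq
    have h1 := hy q hq
    have h2 := hf q hq
    unfold flip at h2
    rw [Function.update_self, h1] at h2
    cases hx : x q <;> simp [hx] at h2
  · intro hq
    refine ⟨x, fun _ _ => rfl, ?_⟩
    intro r hr
    have : r ≠ q := by
      rintro rfl
      exact hr hq
    unfold flip
    rw [Function.update_of_ne this]

lemma mem_cube_self {Q : Type} (S : Set Q) (x : Q → Bool) : x ∈ cube S x := fun _ _ => rfl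

lemma cube_eq {Q : Type} {S : Set Q} {x y : Q → Bool} (h : y ∈ cube S x) :
    cube S y = cube S x := by
  ext z
  constructor
  · intro hz q hq
    rw [hz q hq, h q hq]
  · intro hz q hq
    rw [hz q hq, h q hq]

/-- Every three members: one of them contains the intersection of the other two. -/
def P3 {Q : Type} (F : Set (Set Q)) : Prop :=
  ∀ A ∈ F, ∀ B ∈ F, ∀ C ∈ F, A ∩ B ⊆ C ∨ B ∩ C ⊆ A ∨ C ∩ A ⊆ B

lemma cube_inter {Q : Type} {S1 S2 S3 : Set Q} {x1 x2 x3 : Q → Bool} (h : S1 ∩ S2 ⊆ S3)
    {u v : Q → Bool} (hu1 : u ∈ cube S1 x1) (hu3 : u ∈ cube S3 x3) (hv2 : v ∈ cube S2 x2)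
    (hv3 : v ∈ cube S3 x3) : cube S1 x1 ∩ cube S2 x2 ⊆ cube S3 x3 := by
  rintro y ⟨hy1, hy2⟩ q hq
  by_cases h1 : q ∈ S1
  · have h2 : q ∉ S2 := fun h2 => hq (h ⟨h1, h2⟩)
    rw [hy2 q h2, ← hv2 q h2, hv3 q hq]
  · rw [hy1 q h1, ← hu1 q h1, hu3 q hq]

lemma P3_next {Q : Type} {F : Set (Set Q)} (h : P3 F) : P3 (next F) := by
  rintro A ⟨S1, hS1, x1, rfl⟩ B ⟨S2, hS2, x2, rfl⟩ C ⟨S3, hS3, x3, rfl⟩
  by_cases h12 : ∃ u, u ∈ cube S1 x1 ∩ cube S2 x2
  · by_cases h23 : ∃ u, u ∈ cube S2 x2 ∩ cube S3 x3
    · by_cases h31 : ∃ u, u ∈ cube S3 x3 ∩ cube S1 x1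
      · obtain ⟨u, hu⟩ := h12
        obtain ⟨v, hv⟩ := h23
        obtain ⟨w, hw⟩ := h31
        rcases h S1 hS1 S2 hS2 S3 hS3 with h' | h' | h'
        · exact Or.inl (cube_inter h' hw.2 hw.1 hv.1 hv.2)
        · exact Or.inr (Or.inl (cube_inter h' hu.2 hu.1 hw.1 hw.2))
        · exact Or.inr (Or.inr (cube_inter h' hv.2 hv.1 hu.1 hu.2))
      · right; right
        intro u hu
        exact absurd ⟨u, hu⟩ h31
    · right; left
      intro u hu
      exact absurd ⟨u, hu⟩ h23
  · left
    intro u hu
    exact absurd ⟨u, hu⟩ h12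

/-- The incidence relation of a family. -/
def inc {Q : Type} (F : Set (Set Q)) (v : F) (q : Q) : Prop := q ∈ v.1

lemma free_mem {Q : Type} {F : Set (Set Q)} (C : next F) : free C.1 ∈ F := by
  obtain ⟨C, S, hS, x, rfl⟩ := C
  rw [free_cube]
  exact hS

lemma stepData {Q : Type} (F : Set (Set Q)) :
    StepData (inc F) (inc (next F)) (fun C => ⟨free C.1, free_mem C⟩)
      (fun x v => ⟨cube v.1 x, v.1, v.2, x, rfl⟩) where
  pr_lift x v := by
    apply Subtype.ext
    exact free_cube _ _
  lift_mem x v := mem_cube_self _ _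
  lift_pr x v' h := by
    obtain ⟨C, S, hS, y, rfl⟩ := v'
    apply Subtype.ext
    show cube (free (cube S y)) x = cube S y
    rw [free_cube]
    exact cube_eq h
  mem_iff x y v' h := by
    obtain ⟨C, S, hS, z, rfl⟩ := v'
    show y ∈ cube S z ↔ ∀ q, ¬ (q ∈ free (cube S z)) → y q = x q
    rw [free_cube]
    have hx : x ∈ cube S z := h
    rw [← cube_eq hx]
    rfl

/-- The statement carried by the induction. -/
def Good (k : ℕ) : Prop :=
  ∃ (Q : Type) (_ : Fintype Q) (F : Set (Set Q)) (_ : Fintype F), Nonempty Q ∧ Nonempty F ∧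
    P3 F ∧ Pair (inc F) k

lemma good_zero : Good 0 := by
  refine ⟨Unit, inferInstance, {∅}, Fintype.ofFinite _, inferInstance, ⟨⟨∅, rfl⟩⟩, ?_, ?_⟩
  · intro A hA B hB C hC
    left
    rw [Set.mem_singleton_iff] at hA
    rw [hA]
    simp
  · let _ : Fintype ({∅} : Set (Set Unit)) := Fintype.ofFinite _
    refine ⟨fun _ => 1, LinearMap.proj (fun i => i.elim0), ?_, ?_, ?_, ?_, ?_⟩
    · intro σ t
      have : σ = 1 := Subsingleton.elim _ _
      rw [this]
      simp
    · intro t _
      exact ⟨(), fun i => i.elim0⟩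
    · intro t i
      exact i.elim0
    · simp
    · intro w _ hs
      rw [LinearMap.proj_apply]
      unfold bd
      apply Finset.sum_eq_zero
      intro v _
      by_contra h
      obtain ⟨q, hq⟩ := hs _ h
      have h0 := hq 0
      have h1 : v.1 = ∅ := v.2
      unfold inc at h0
      rw [Fin.cons_zero, h1] at h0
      exact h0

lemma good_succ {k : ℕ} (h : Good k) : Good (k + 1) := by
  obtain ⟨Q, hQ, F, hF, hn, hFn, hP, hpair⟩ := h
  refine ⟨Q → Bool, inferInstance, next F, Fintype.ofFinite _, inferInstance, ?_, P3_next hP, ?_⟩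
  · obtain ⟨S⟩ := hFn
    exact ⟨⟨cube S.1 (fun _ => false), S.1, S.2, _, rfl⟩⟩
  · let _ : Fintype (next F) := Fintype.ofFinite _
    exact Pair.step (stepData F) hpair

lemma good_all (k : ℕ) : Good k := by
  induction k with
  | zero => exact good_zero
  | succ k ih => exact good_succ ih

end Cubes

/-! ### Conclusion -/

lemma comatching_of_P3 {X : Type} {F : Set (Set X)} (h : P3 F) : ComatchingLE F 2 := by
  intro M hM hc
  by_contra hcard
  push Not at hcard
  obtain ⟨A, hA, B, hB, C, hC, hAB, hAC, hBC⟩ := Finset.two_lt_card.1 hcard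
  obtain ⟨a, ha1, ha2⟩ := hc A hA
  obtain ⟨b, hb1, hb2⟩ := hc B hB
  obtain ⟨c, hc1, hc2⟩ := hc C hC
  rcases h A (hM A hA) B (hM B hB) C (hM C hC) with h' | h' | h'
  · exact hc1 (h' ⟨hc2 A hA hAC, hc2 B hB hBC⟩)
  · exact ha1 (h' ⟨ha2 B hB hAB.symm, ha2 C hC hAC.symm⟩)
  · exact hb1 (h' ⟨hb2 C hC hBC.symm, hb2 A hA hAB⟩)

lemma boundary_apply {V : Type} [Fintype V] {k : ℕ} (c : (Fin (k + 1) → V) →₀ ℚ)
    (t : Fin k → V) : boundary c t = bd c t := by
  classical
  unfold boundary bd
  rw [Finsupp.mapDomain, Finsupp.sum_apply, Finsupp.sum_fintype _ _ (by simp)]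
  rw [← (Fin.consEquiv (fun _ : Fin (k + 1) => V)).sum_comp, Fintype.sum_prod_type]
  apply Finset.sum_congr rfl
  intro v _
  rw [Finset.sum_eq_single t]
  · simp [Fin.consEquiv]
  · intro s _ hs
    rw [Finsupp.single_apply, if_neg]
    simpa [Fin.consEquiv] using hs
  · intro h
    exact absurd (Finset.mem_univ _) h

/-- For every `d` there is a finite set `X` and a family `F` of subsets of `X` with comatching
number at most two whose nerve is not `d`-Leray. -/
theorem result : ∀ d : ℕ, ∃ (X : Type) (_ : Finite X) (F : Set (Set X)),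
    ComatchingLE F 2 ∧ ¬ IsLeray (nerve F) d := by
  classical
  intro d
  obtain ⟨Q, hQ, F, hF, hQn, -, hP, z, φ, hza, hzs, hzc, hφ, hco⟩ := good_all (d + 1)
  refine ⟨Q, inferInstance, F, comatching_of_P3 hP, ?_⟩
  intro hL
  have hface : ∀ {k : ℕ} (t : Fin (k + 1) → F), Fc (inc F) t ↔
      ∃ s ∈ induced (nerve F) Set.univ, (s : Set F) = Set.range t := by
    intro k t
    constructor
    · rintro ⟨q, hq⟩
      refine ⟨Finset.univ.image t,
        ⟨⟨⟨t 0, Finset.mem_image_of_mem _ (Finset.mem_univ _)⟩, q, ?_⟩, fun _ _ => trivial⟩, ?_⟩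
      · intro f hf
        obtain ⟨i, -, rfl⟩ := Finset.mem_image.1 hf
        exact hq i
      · simp
    · rintro ⟨s, ⟨⟨-, q, hq⟩, -⟩, hs⟩
      refine ⟨q, fun i => hq _ ?_⟩
      have : t i ∈ (s : Set F) := by
        rw [hs]
        exact ⟨i, rfl⟩
      exact this
  have hch : IsChain (induced (nerve F) Set.univ) (Finsupp.equivFunOnFinite.symm z) :=
    ⟨hza, fun t ht => Or.inr ((hface t).1 (hzs t ht))⟩
  have hbd : boundary (Finsupp.equivFunOnFinite.symm z) = 0 := by
    ext t
    rw [boundary_apply]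
    show ∑ v, z (Fin.cons v t) = 0
    by_cases hV : Nonempty F
    · obtain ⟨v0⟩ := hV
      have := hzc (Fin.cons v0 t) 0
      simpa using this
    · apply Finset.sum_eq_zero
      intro v _
      exact absurd ⟨v⟩ hV
  obtain ⟨w, hw, hwz⟩ := hL Set.univ d le_rfl (Finsupp.equivFunOnFinite.symm z) hch hbd
  apply hφ
  have : z = bd w := by
    funext t
    rw [← boundary_apply, hwz]
    rfl
  rw [this]
  apply hco
  · exact hw.alt
  · intro t ht
    rcases hw.supp t ht with h | h
    · exact absurd h (by simp)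
    · exact (hface t).2 h

end Pool.Agent.Results.MP_587f0f_co.NotLeray
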